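import Mathlib

set_option autoImplicit false

/-!
# Definitions for the solution of S01585 (MP_5c00b6_al Q1)
-/

namespace Pool.Agent.Helper84.LV

open scoped Classical

/-- Foelner property for right multiplications. -/
def Fol (G : Type) [Group G] : Prop :=
  ∀ (S : Finset G) (ε : ℝ), 0 < ε →
    ∃ F : Finset G, F.Nonempty ∧
      ∀ s ∈ S, ((F.filter (fun g => g * s ∉ F)).card : ℝ) ≤ ε * (F.card : ℝ)

/-- The group extension used to add one level. -/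
structure Ext (N : Type) [Group N] where
  M : Type
  [grp : Group M]
  pr : M →* N
  inc : N →* M
  B : Subgroup M
  rho : M
  phi : M → ℤ
  pr_inc : ∀ u, pr (inc u) = u
  pr_rho : pr rho = 1
  pr_B : ∀ b ∈ B, pr b = 1
  conj : ∀ u : N, u ≠ 1 → (inc u)⁻¹ * rho * inc u ∈ B
  stab2 : ∀ h ∈ B, rho⁻¹ * h * rho ∈ B → h = 1
  stabAll : ∀ h : M, pr h = 1 → (∀ u : N, (inc u)⁻¹ * h * inc u ∈ B) → h = 1
  phi_B : ∀ h : M, ∀ b ∈ B, phi (h * b) = phi h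
  phi_rho : ∀ h : M, phi (h * rho⁻¹) = phi h - 1
  fol : Fol N → Fol M

attribute [instance] Ext.grp

/-- A stage with `n` levels. -/
structure Stage (n : ℕ) where
  N : Type
  [grp : Group N]
  W : Type
  [acg : AddCommGroup W]
  [mod : Module ℚ W]
  act : N →* Module.End ℚ W
  rho : ℕ → N
  x : ℕ → W
  fol : Fol N
  R1 : ∀ p k, p + 2 ^ k < n →
    act (rho (p + 2 ^ k)) (x p) = x p + act (rho (p + 2 ^ k)) (x (p + 2 ^ k))
  LI : ∀ a : ℕ → ℚ, ∑ r ∈ Finset.range n, a r • x r = 0 → ∀ r < n, a r = 0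
  LT : ∀ (u : N) (p : ℕ) (a : ℕ → ℚ), p < n →
    act u (x p) = ∑ r ∈ Finset.range n, a r • x r → (∀ r < p, a r = 0) ∧ a p = 1
  J : ∀ p k, p + 2 ^ k < n → n ≤ p + 2 ^ k + 2 ^ k → ∀ (v : N) (a b : ℕ → ℚ),
    act v (x (p + 2 ^ k)) = ∑ r ∈ Finset.range n, a r • x r →
    act v (act (rho (p + 2 ^ k))⁻¹ (x p)) = ∑ r ∈ Finset.range n, b r • x r → v = 1
  INJ : ∀ p k, p + 2 ^ k < n → ∀ h : N, act h (x p) = x p →
    act h (act (rho (p + 2 ^ k)) (x (p + 2 ^ k))) = act (rho (p + 2 ^ k)) (x (p + 2 ^ k)) → h = 1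
  POS : ∀ F : Finset N, ∃ ψ : W →ₗ[ℚ] ℚ, ∀ u ∈ F, ∀ p < n, 0 < ψ (act u (x p))

attribute [instance] Stage.grp Stage.acg Stage.mod

end Pool.Agent.Helper84.LV
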