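import Pool.Agent.Helper84.LV.Defs

set_option autoImplicit false

/-!
# The wreath product `Wr G = (G →₀ ℤ) ⋊ G`
-/

namespace Pool.Agent.Helper84.LV

/-- Elements of the wreath product of the integers by `G`. -/
@[ext] structure Wr (G : Type) where
  lamp : G →₀ ℤ
  pos : G

namespace Wr

variable {G : Type} [Group G]

/-- Left translate of a lamp function. -/
noncomputable def tr (g : G) (F : G →₀ ℤ) : G →₀ ℤ := F.equivMapDomain (Equiv.mulLeft g)

@[simp] theorem tr_apply (g x : G) (F : G →₀ ℤ) : tr g F x = F (g⁻¹ * x) := by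
  simp [tr]

@[simp] theorem tr_one (F : G →₀ ℤ) : tr 1 F = F := by
  ext x; simp

@[simp] theorem tr_zero (g : G) : tr g (0 : G →₀ ℤ) = 0 := by
  ext x; simp

@[simp] theorem tr_tr (g h : G) (F : G →₀ ℤ) : tr g (tr h F) = tr (g * h) F := by
  ext x; simp [mul_assoc]

theorem tr_add (g : G) (F F' : G →₀ ℤ) : tr g (F + F') = tr g F + tr g F' := by
  ext x; simp

theorem tr_neg (g : G) (F : G →₀ ℤ) : tr g (-F) = -tr g F := by
  ext x; simp

noncomputable instance : Mul (Wr G) := ⟨fun a b => ⟨a.lamp + tr a.pos b.lamp, a.pos * b.pos⟩⟩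
noncomputable instance : One (Wr G) := ⟨⟨0, 1⟩⟩
noncomputable instance : Inv (Wr G) := ⟨fun a => ⟨-tr a.pos⁻¹ a.lamp, a.pos⁻¹⟩⟩

@[simp] theorem mul_lamp (a b : Wr G) : (a * b).lamp = a.lamp + tr a.pos b.lamp := rfl
@[simp] theorem mul_pos (a b : Wr G) : (a * b).pos = a.pos * b.pos := rfl
@[simp] theorem one_lamp : (1 : Wr G).lamp = 0 := rfl
@[simp] theorem one_pos : (1 : Wr G).pos = 1 := rfl
@[simp] theorem inv_lamp (a : Wr G) : (a⁻¹).lamp = -tr a.pos⁻¹ a.lamp := rfl
@[simp] theorem inv_pos (a : Wr G) : (a⁻¹).pos = a.pos⁻¹ := rfl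

noncomputable instance : Group (Wr G) :=
  Group.ofLeftAxioms
    (fun a b c => by
      ext1
      · simp only [mul_lamp, mul_pos, tr_add, tr_tr, add_assoc]
      · simp only [mul_pos, mul_assoc])
    (fun a => by ext1 <;> simp)
    (fun a => by ext1 <;> simp)

end Wr

end Pool.Agent.Helper84.LV
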